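import Pool.Agent.helper45.BR.Spec

/-!
# Module JFR of project br: (MP_af9036_an, MP_70a088_an): the Julia set is the boundary of the filled Julia set
-/

set_option autoImplicit false

open Complex Metric Set Filter Topology MeasureTheory MPS Pool.Agent.helper98.ILF
  Pool.Agent.helper16.Multibrot

noncomputable section

namespace BR

/-- the chordal distance of a point of norm at most `R` and a point of norm at least `2R+1`. -/
theorem JFR_chordal (R : ℝ) (a b : ℂ) (hb : ‖b‖ ≤ R) (ha : 2 * R + 1 ≤ ‖a‖) :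
    1 / (2 * (1 + R)) ≤ chordal a b := by
  have hR : 0 ≤ R := (norm_nonneg b).trans hb
  have ha0 : 0 ≤ ‖a‖ := norm_nonneg a
  have hb0 : 0 ≤ ‖b‖ := norm_nonneg b
  have h1 : Real.sqrt (1 + ‖a‖ ^ 2) ≤ 1 + ‖a‖ := by
    rw [Real.sqrt_le_left (by positivity)]
    nlinarith
  have h2 : Real.sqrt (1 + ‖b‖ ^ 2) ≤ 1 + R := by
    rw [Real.sqrt_le_left (by positivity)]
    nlinarith
  have h3 : ‖a‖ - R ≤ ‖a - b‖ := by
    have := norm_sub_norm_le a b
    linarith
  have h4 : 0 < Real.sqrt (1 + ‖a‖ ^ 2) * Real.sqrt (1 + ‖b‖ ^ 2) := by positivity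
  have h5 : Real.sqrt (1 + ‖a‖ ^ 2) * Real.sqrt (1 + ‖b‖ ^ 2) ≤ (1 + ‖a‖) * (1 + R) :=
    mul_le_mul h1 h2 (Real.sqrt_nonneg _) (by positivity)
  unfold chordal
  rw [div_le_div_iff₀ (by positivity) h4, one_mul]
  calc Real.sqrt (1 + ‖a‖ ^ 2) * Real.sqrt (1 + ‖b‖ ^ 2) ≤ (1 + ‖a‖) * (1 + R) := h5
    _ ≤ (2 * (‖a‖ - R)) * (1 + R) := mul_le_mul_of_nonneg_right (by linarith) (by linarith)
    _ = (‖a‖ - R) * (2 * (1 + R)) := by ring
    _ ≤ ‖a - b‖ * (2 * (1 + R)) := mul_le_mul_of_nonneg_right h3 (by positivity)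

/-- **JFR**. -/
theorem JFR : JFR_stmt := by
  intro n c hn
  refine Subset.antisymm (juliaSet_subset hn c) ?_
  intro b hb hF
  have hbK : b ∈ filled n c := (isClosed_filled n c).frontier_subset hb
  have heq : EquicontAt (fun z : ℂ => z ^ n + c) b := interior_subset hF
  have hc : 0 ≤ ‖c‖ := norm_nonneg c
  obtain ⟨δ, hδ, h⟩ := heq (1 / (2 * (1 + (2 + ‖c‖)))) (by positivity)
  have hsub : ball b δ ⊆ filled n c := by
    intro w hw
    by_contra hwK
    obtain ⟨k, hk⟩ := exists_of_notMem_filled hn hwK (2 * (2 + ‖c‖) + 1)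
    have h1 := h w (by rw [← dist_eq_norm]; exact hw) k
    have h2 := JFR_chordal (2 + ‖c‖) ((fun z : ℂ => z ^ n + c)^[k] w)
      ((fun z : ℂ => z ^ n + c)^[k] b) (hbK k) (hk k le_rfl).le
    linarith
  rw [(isClosed_filled n c).frontier_eq] at hb
  exact hb.2 (interior_maximal hsub isOpen_ball (mem_ball_self hδ))

end BR
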